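import Pool.Agent.Helper59.AN.Goals

/-!
# SIG: a closed family of names gives a sigma-algebra
-/

noncomputable section

namespace AN.PkSIG

open Pool.Agent.Helper97.Ku NU BSet AN

variable {L : Type} [CompleteBooleanAlgebra L]

theorem Ext.iff {φ ψ : BSet L → L} (h : BSet.Ext φ) (k : BSet.Ext ψ) :
    BSet.Ext (fun x => iffV (φ x) (ψ x)) :=
  BSet.Ext.inf (BSet.Ext.himp h k) (BSet.Ext.himp k h)

theorem prExt2 (z a : BSet L) : BSet.Ext (fun b => prV z a b) := by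
  unfold prV
  refine BSet.Ext.iInf fun t => Ext.iff (BSet.Ext.const _) ?_
  refine BSet.Ext.sup (BSet.Ext.const _) ?_
  refine BSet.Ext.iInf fun s => Ext.iff (BSet.Ext.const _) ?_
  exact BSet.Ext.sup (BSet.Ext.const _) (BSet.Ext.eq_right s)

theorem prExt1 (z b : BSet L) : BSet.Ext (fun a => prV z a b) := by
  unfold prV
  refine BSet.Ext.iInf fun t => Ext.iff (BSet.Ext.const _) ?_
  refine BSet.Ext.sup ?_ ?_
  · exact BSet.Ext.iInf fun s => Ext.iff (BSet.Ext.const _) (BSet.Ext.eq_right s)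
  · refine BSet.Ext.iInf fun s => Ext.iff (BSet.Ext.const _) ?_
    exact BSet.Ext.sup (BSet.Ext.eq_right s) (BSet.Ext.const _)

theorem apExt2 (f a : BSet L) : BSet.Ext (fun b => apV f a b) := by
  unfold apV
  exact BSet.Ext.iSup fun z => BSet.Ext.inf (BSet.Ext.const _) (prExt2 z a)

theorem apExt1 (f b : BSet L) : BSet.Ext (fun a => apV f a b) := by
  unfold apV
  exact BSet.Ext.iSup fun z => BSet.Ext.inf (BSet.Ext.const _) (prExt1 z b)

theorem secExt (o R u : BSet L) : BSet.Ext (fun Y => secV o R u Y) := by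
  unfold secV
  exact BSet.Ext.iInf fun x => Ext.iff (BSet.Ext.mem_right x) (BSet.Ext.const _)

theorem iffV_refl (a : L) : iffV a a = ⊤ := by
  unfold iffV
  rw [himp_self, inf_top_eq]

theorem iffV_l (a b : L) : iffV a b ⊓ a ≤ b := by
  unfold iffV
  rw [← le_himp_iff]
  exact inf_le_left

theorem iffV_r (a b : L) : iffV a b ⊓ b ≤ a := by
  unfold iffV
  rw [← le_himp_iff]
  exact inf_le_right

theorem le_iffV {e a b : L} (h1 : e ⊓ a ≤ b) (h2 : e ⊓ b ≤ a) : e ≤ iffV a b :=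
  le_inf (le_himp_iff.2 h1) (le_himp_iff.2 h2)

theorem iInfS (V : Set ((ℕ → L) → L)) (φ : BSet L → L) (h : BSet.Ext φ) :
    (⨅ Y : BSet L, (Y.mem (SN V) ⇨ φ Y)) = ⨅ y : V, φ (YN y.1) := by
  have h1 := BSet.iInf_mem (SN V) φ h
  rw [h1]
  show (⨅ a : V, ((⊤ : L) ⇨ φ (YN a.1))) = _
  simp only [top_himp]

theorem iSupS (V : Set ((ℕ → L) → L)) (φ : BSet L → L) (h : BSet.Ext φ) :
    (⨆ Y : BSet L, (Y.mem (SN V) ⊓ φ Y)) = ⨆ y : V, φ (YN y.1) := by
  have h1 := BSet.iSup_mem (SN V) φ h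
  rw [h1]
  show (⨆ a : V, ((⊤ : L) ⊓ φ (YN a.1))) = _
  simp only [top_inf_eq]

theorem mem_S {V : Set ((ℕ → L) → L)} {y : (ℕ → L) → L} (h : y ∈ V) :
    (YN y).mem (SN V) = ⊤ := by
  rw [eq_top_iff]
  exact BSet.el_mem (SN V) (⟨y, h⟩ : V)

theorem iSup_om (φ : BSet L → L) (h : BSet.Ext φ) :
    (⨆ n : BSet L, (n.mem omN ⊓ φ n)) = ⨆ n : ℕ, φ (nn n) := by
  have h1 := BSet.iSup_mem (omN : BSet L) φ h
  rw [h1]
  show (⨆ a : ℕ, ((⊤ : L) ⊓ φ (nn a))) = _
  simp only [top_inf_eq]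

theorem iInf_om_le (φ : BSet L → L) (n : ℕ) :
    (⨅ n : BSet L, (n.mem omN ⇨ φ n)) ≤ φ (nn n) := by
  refine (iInf_le _ (nn n)).trans ?_
  have h : (nn n : BSet L).mem omN = ⊤ := by
    rw [eq_top_iff]
    exact BSet.el_mem (omN : BSet L) n
  rw [h, top_himp]

theorem sig : G_RQ → G_RN → G_CSUP → G_SIG := by
  intro hQ _ hC L _ hccc V hne hX hcpl hun
  obtain ⟨_, _, q3, q4, _, q6⟩ := hQ L
  obtain ⟨y₀, hy₀⟩ := hne
  unfold sigV
  rw [eq_top_iff]
  refine le_inf ?_ (le_inf ?_ (le_inf ?_ ?_))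
  · rw [iInfS V (fun Y => realsV omN Y)]
    · exact le_iInf fun y => (q4 y.1 (hX y.1 y.2)).ge
    · unfold realsV
      exact BSet.Ext.iInf fun x => BSet.Ext.himp (BSet.Ext.mem_right x) (BSet.Ext.const _)
  · refine le_trans ?_ (le_iSup _ (YN y₀))
    exact (mem_S hy₀).ge
  · unfold cplV
    rw [iInfS V (fun Y => ⨆ Z : BSet L, (Z.mem (SN V) ⊓
      ⨅ x : BSet L, iffV (x.mem Z) (subV x omN ⊓ (x.mem Y)ᶜ)))]
    · refine le_iInf fun y => ?_
      refine le_trans ?_ (le_iSup _ (YN fun a => (y.1 a)ᶜ))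
      refine le_inf (mem_S (hcpl y.1 y.2)).ge ?_
      rw [q6 (fun a => (y.1 a)ᶜ) (fun x => (x.mem (YN y.1))ᶜ) (hX _ (hcpl y.1 y.2))
        (BSet.Ext.compl (BSet.Ext.mem_left _))]
      refine le_iInf fun a => ?_
      show ⊤ ≤ iffV ((y.1 a)ᶜ) (((rN a).mem (YN y.1))ᶜ)
      rw [q3 y.1 a (hX y.1 y.2), iffV_refl]
    · refine BSet.Ext.iSup fun Z => BSet.Ext.inf (BSet.Ext.const _) ?_
      refine BSet.Ext.iInf fun x => Ext.iff (BSet.Ext.const _) ?_
      exact BSet.Ext.inf (BSet.Ext.const _) (BSet.Ext.compl (BSet.Ext.mem_right x))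
  · unfold unV
    refine le_iInf fun R => ?_
    rw [le_himp_iff, top_inf_eq]
    set e := ⨅ n : BSet L, (n.mem omN ⇨ ⨆ Y : BSet L, (Y.mem (SN V) ⊓ secV omN R n Y)) with he
    set c : ℕ → V → L := fun n y => ⨅ a : ℕ → L, iffV (y.1 a) (apV R (nn n) (rN a)) with hc
    have he1 : ∀ n : ℕ, e ≤ ⨆ y : V, c n y := by
      intro n
      have h1 := iInf_om_le (L := L)
        (fun n => ⨆ Y : BSet L, (Y.mem (SN V) ⊓ secV omN R n Y)) n
      refine h1.trans ?_
      show (⨆ Y : BSet L, (Y.mem (SN V) ⊓ secV omN R (nn n) Y)) ≤ _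
      rw [iSupS V (fun Y => secV omN R (nn n) Y) (secExt _ _ _)]
      refine iSup_mono fun y => ?_
      unfold secV
      rw [q6 y.1 (fun x => apV R (nn n) x) (hX y.1 y.2) (apExt2 _ _)]
    have hseq : ∀ n : ℕ, ∃ f : ℕ → V, (⨆ y : V, c n y) ≤ ⨆ k, c n (f k) := by
      intro n
      obtain ⟨s, hs, hsup⟩ := hC L hccc V (c n)
      have hne : (insert (⟨y₀, hy₀⟩ : V) s).Nonempty := ⟨_, Set.mem_insert _ _⟩
      obtain ⟨f, hf⟩ := (hs.insert (⟨y₀, hy₀⟩ : V)).exists_eq_range hne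
      refine ⟨f, ?_⟩
      rw [hsup]
      refine iSup₂_le fun y hy => ?_
      have : y ∈ Set.range f := hf ▸ Set.mem_insert_of_mem _ hy
      obtain ⟨k, rfl⟩ := this
      exact le_iSup (fun k => c n (f k)) k
    choose ys hys using hseq
    set z : (ℕ → L) → L := fun a => ⨆ m : ℕ, (c m.unpair.1 (ys m.unpair.1 m.unpair.2) ⊓
      (ys m.unpair.1 m.unpair.2).1 a) with hz
    have hzV : z ∈ V := hun (fun m => c m.unpair.1 (ys m.unpair.1 m.unpair.2))
      (fun m => (ys m.unpair.1 m.unpair.2).1) (fun m => (ys m.unpair.1 m.unpair.2).2)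
    have hzle : ∀ n k a, c n (ys n k) ⊓ (ys n k).1 a ≤ z a := by
      intro n k a
      have h1 := le_iSup (fun m : ℕ => c m.unpair.1 (ys m.unpair.1 m.unpair.2) ⊓
        (ys m.unpair.1 m.unpair.2).1 a) (Nat.pair n k)
      simpa using h1
    refine le_trans ?_ (le_iSup _ (YN z))
    refine le_inf (le_trans le_top (mem_S hzV).ge) ?_
    rw [q6 z (fun x => ⨆ n : BSet L, (n.mem omN ⊓ apV R n x)) (hX z hzV)
      (BSet.Ext.iSup fun n => BSet.Ext.inf (BSet.Ext.const _) (apExt2 _ _))]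
    refine le_iInf fun a => ?_
    show e ≤ iffV (z a) (⨆ n : BSet L, (n.mem omN ⊓ apV R n (rN a)))
    rw [iSup_om (fun n => apV R n (rN a)) (apExt1 _ _)]
    refine le_iffV ?_ ?_
    · refine le_trans inf_le_right ?_
      refine iSup_le fun m => ?_
      refine le_trans ?_ (le_iSup _ m.unpair.1)
      refine le_trans (inf_le_inf_right _ (iInf_le _ a)) ?_
      exact iffV_l _ _
    · rw [inf_iSup_eq]
      refine iSup_le fun n => ?_
      refine le_trans (inf_le_inf_right _ ((he1 n).trans (hys n))) ?_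
      rw [iSup_inf_eq]
      refine iSup_le fun k => ?_
      refine le_trans ?_ (hzle n k a)
      refine le_inf inf_le_left ?_
      refine le_trans (inf_le_inf_right _ (iInf_le _ a)) ?_
      exact iffV_r _ _

end AN.PkSIG
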